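import Pool.Agent.R473.FV.Sep

/-!
# One number which no finite-state predictor predicts well
-/

set_option autoImplicit false

namespace Pool.Agent.R473.FV

open Finset
open Pool.Agent.H831R3.LC (dig A)
open Pool.Agent.R473.FP (run errors)

variable {ι : Type} [Fintype ι] [DecidableEq ι]

/-- At least one of the numbers is hard for all bases and all finite-state predictors. -/
theorem some_number (x : ι → ℝ) (μ c0 : ℝ) (hμ : 1 ≤ μ) (hc0 : 0 < c0)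
    (hM : ∀ q : ℕ, 1 ≤ q → ∀ p : ι → ℤ, ∃ j, c0 ≤ (q : ℝ) ^ (μ - 1) * |q * x j - p j|)
    (θ c : ℝ) (hθ : 0 ≤ θ) (hc : 0 ≤ c)
    (hlt : c * (Fintype.card ι * Real.log (Fintype.card ι * μ)) < 1 - θ) :
    ∃ j, ∀ b : ℕ, 2 ≤ b → ∀ N0 : ℕ, ∃ N : ℕ, N0 ≤ N ∧ ∀ (Q : ℕ) (δ : Fin Q → ℤ → Fin Q)
      (q₀ : Fin Q) (out : Fin Q → ℤ), (Q : ℝ) ≤ (N : ℝ) ^ θ →
      c * Real.log N < errors δ q₀ out (dig (x j) b) N := by
  classical
  by_contra hcon
  push Not at hcon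
  choose b hb N0 h using hcon
  obtain ⟨j0, -⟩ := hM 1 le_rfl (fun _ => 0)
  have hcard : (1 : ℝ) ≤ Fintype.card ι := by
    have : 0 < Fintype.card ι := Fintype.card_pos_iff.2 ⟨j0⟩
    exact_mod_cast this
  obtain ⟨m, hm⟩ : ∃ m : ℝ, m = Fintype.card ι := ⟨_, rfl⟩
  rw [← hm] at hcard hlt
  obtain ⟨K, hK⟩ : ∃ K : ℝ, K = m * μ := ⟨_, rfl⟩
  rw [← hK] at hlt
  have hK1 : 1 ≤ K := by rw [hK]; nlinarith
  have hlK : 0 ≤ Real.log K := Real.log_nonneg hK1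
  have hbR : ∀ j, (2 : ℝ) ≤ b j := fun j => by exact_mod_cast hb j
  have hlb : ∀ j, 0.69 ≤ Real.log (b j) := fun j => by
    have h1 := Real.log_two_gt_d9
    have h2 := Real.log_le_log (by norm_num : (0 : ℝ) < 2) (hbR j)
    linarith
  have hlb0 : ∀ j, 0 < Real.log (b j) := fun j => by linarith [hlb j]
  obtain ⟨γ, hγ⟩ : ∃ γ : ℝ, γ = c * (m * Real.log K) := ⟨_, rfl⟩
  rw [← hγ] at hlt
  have hγ0 : 0 ≤ γ := by rw [hγ]; positivity
  obtain ⟨η, hη⟩ : ∃ η : ℝ, η = (1 - θ - γ) / 2 := ⟨_, rfl⟩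
  have hη0 : 0 < η := by rw [hη]; linarith
  obtain ⟨Λ, hΛ⟩ : ∃ Λ : ℝ, Λ = ∑ j, Real.log (b j) := ⟨_, rfl⟩
  have hΛ0 : 0 ≤ Λ := by rw [hΛ]; exact Finset.sum_nonneg fun j _ => (hlb0 j).le
  obtain ⟨C, hC⟩ : ∃ C : ℝ, C = Real.log 2 + |Real.log c0| := ⟨_, rfl⟩
  have hC0 : 0 ≤ C := by
    rw [hC]
    have h2 := abs_nonneg (Real.log c0)
    have h3 : 0 < Real.log 2 := Real.log_pos (by norm_num)
    linarith
  obtain ⟨A, hA⟩ : ∃ A : ℝ, A = (m * c / η + 1) * (μ * Λ * 2 + C) := ⟨_, rfl⟩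
  have hlim := (tendsto_rpow_atTop hη0).eventually_gt_atTop (3 * A)
  obtain ⟨Y0, hY0⟩ := Filter.eventually_atTop.1 hlim
  obtain ⟨X, hX⟩ : ∃ X : ℝ, X = max (max 1 Y0) ((∑ j, (N0 j : ℝ) * Real.log (b j)) + 1) := ⟨_, rfl⟩
  have hX1 : 1 ≤ X := by rw [hX]; exact (le_max_left _ _).trans (le_max_left _ _)
  have hXY : Y0 ≤ X := by rw [hX]; exact (le_max_right _ _).trans (le_max_left _ _)
  have hXN : ∀ j, (N0 j : ℝ) * Real.log (b j) ≤ X := fun j => by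
    have h1 : (N0 j : ℝ) * Real.log (b j) ≤ ∑ j, (N0 j : ℝ) * Real.log (b j) :=
      Finset.single_le_sum (f := fun j => (N0 j : ℝ) * Real.log (b j))
        (fun i _ => mul_nonneg (Nat.cast_nonneg _) (hlb0 i).le) (Finset.mem_univ j)
    have h2 := le_max_right (max 1 Y0) ((∑ j, (N0 j : ℝ) * Real.log (b j)) + 1)
    rw [← hX] at h2
    linarith
  obtain ⟨N, hN⟩ : ∃ N : ι → ℕ, ∀ j, N j = ⌈X / Real.log (b j)⌉₊ := ⟨_, fun _ => rfl⟩
  have hN1 : ∀ j, X ≤ N j * Real.log (b j) := fun j => by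
    have h1 := Nat.le_ceil (X / Real.log (b j))
    rw [← hN] at h1
    rwa [div_le_iff₀ (hlb0 j)] at h1
  have hN2 : ∀ j, (N j : ℝ) ≤ 3 * X := fun j => by
    have h1 := Nat.ceil_lt_add_one (div_nonneg (by linarith : (0 : ℝ) ≤ X) (hlb0 j).le)
    rw [← hN] at h1
    have h2 : X / Real.log (b j) ≤ 2 * X := by
      rw [div_le_iff₀ (hlb0 j)]
      nlinarith [hlb j]
    linarith
  have hN3 : ∀ j, N0 j ≤ N j := fun j => by
    have h1 := (hXN j).trans (hN1 j)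
    exact_mod_cast le_of_mul_le_mul_right h1 (hlb0 j)
  have hNpos : ∀ j, (0 : ℝ) < N j := fun j => by
    rcases (Nat.cast_nonneg (N j) : (0 : ℝ) ≤ N j).lt_or_eq with h1 | h1
    · exact h1
    · have h2 := hN1 j
      rw [← h1] at h2
      linarith
  choose Q δ q₀ out hQ hE using fun j => h j (N j) (hN3 j)
  obtain ⟨j, hj⟩ := separate x μ c0 hμ hc0 hM b hb Q δ q₀ out N
  obtain ⟨Y, hY⟩ : ∃ Y : ℝ, Y = 3 * X := ⟨_, rfl⟩
  have hY1 : 1 ≤ Y := by rw [hY]; linarith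
  have hlY : 0 ≤ Real.log Y := Real.log_nonneg hY1
  obtain ⟨E, hEE⟩ : ∃ E : ℕ, E = ∑ j, errors (δ j) (q₀ j) (out j) (dig (x j) (b j)) (N j) :=
    ⟨_, rfl⟩
  rw [← hEE, ← hm, ← hK, ← hC] at hj
  have hEb : (E : ℝ) ≤ m * c * Real.log Y := by
    rw [hEE]
    push_cast
    calc ∑ j, (errors (δ j) (q₀ j) (out j) (dig (x j) (b j)) (N j) : ℝ) ≤
          ∑ _j : ι, c * Real.log Y := Finset.sum_le_sum fun j _ => by
            refine (hE j).trans (mul_le_mul_of_nonneg_left ?_ hc)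
            exact Real.log_le_log (hNpos j) (by rw [hY]; exact hN2 j)
      _ = _ := by rw [Finset.sum_const, nsmul_eq_mul, hm]; simp; ring
  have hg : ∑ i ∈ range (E + 1), K ^ i ≤ (E + 1) * K ^ E := by
    calc ∑ i ∈ range (E + 1), K ^ i ≤ ∑ _i ∈ range (E + 1), K ^ E :=
          Finset.sum_le_sum fun i hi => pow_le_pow_right₀ hK1 (by
            have := mem_range.1 hi; omega)
      _ = _ := by rw [Finset.sum_const, nsmul_eq_mul, card_range]; push_cast; ring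
  have hKE : K ^ E ≤ Y ^ γ := by
    rw [← Real.rpow_natCast K E]
    have h1 : K ^ (E : ℝ) = Real.exp (Real.log K * E) := Real.rpow_def_of_pos (by linarith) _
    have h2 : Y ^ γ = Real.exp (Real.log Y * γ) := Real.rpow_def_of_pos (by linarith) _
    rw [h1, h2, Real.exp_le_exp]
    have h3 := mul_le_mul_of_nonneg_left hEb hlK
    rw [hγ]
    linarith
  have hlogY : Real.log Y ≤ Y ^ η / η := Real.log_le_rpow_div (by linarith) hη0
  have hYη : 1 ≤ Y ^ η := Real.one_le_rpow hY1 hη0.le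
  have hYθ : 1 ≤ Y ^ θ := Real.one_le_rpow hY1 hθ
  have hYγ : 1 ≤ Y ^ γ := Real.one_le_rpow hY1 hγ0
  have hmc : 0 ≤ m * c := mul_nonneg (by linarith) hc
  have hE1 : (E : ℝ) + 1 ≤ (m * c / η + 1) * Y ^ η := by
    have h1 := mul_le_mul_of_nonneg_left hlogY hmc
    have h2 : m * c * (Y ^ η / η) = m * c / η * Y ^ η := by ring
    nlinarith
  have hQs : μ * ∑ j, ((Q j : ℝ) + 1) * Real.log (b j) + C ≤ (μ * Λ * 2 + C) * Y ^ θ := by
    have h1 : ∑ j, ((Q j : ℝ) + 1) * Real.log (b j) ≤ Λ * 2 * Y ^ θ := by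
      rw [hΛ, Finset.sum_mul, Finset.sum_mul]
      refine Finset.sum_le_sum fun i _ => ?_
      have h2 : (Q i : ℝ) ≤ Y ^ θ := (hQ i).trans
        (Real.rpow_le_rpow (Nat.cast_nonneg _) (by rw [hY]; exact hN2 i) hθ)
      have h3 := hlb0 i
      nlinarith
    have h2 := mul_le_mul_of_nonneg_left h1 (by linarith : (0 : ℝ) ≤ μ)
    nlinarith
  have hfin : X ≤ A * Y ^ (1 - η) := by
    have hsum0 : 0 ≤ μ * ∑ j, ((Q j : ℝ) + 1) * Real.log (b j) + C := by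
      have h1 : 0 ≤ ∑ j, ((Q j : ℝ) + 1) * Real.log (b j) :=
        Finset.sum_nonneg fun i _ => mul_nonneg (by positivity) (hlb0 i).le
      have : 0 ≤ μ * ∑ j, ((Q j : ℝ) + 1) * Real.log (b j) := mul_nonneg (by linarith) h1
      linarith
    have h1 : ∑ i ∈ range (E + 1), K ^ i ≤ ((m * c / η + 1) * Y ^ η) * Y ^ γ := by
      refine hg.trans (mul_le_mul hE1 hKE (by positivity) (by positivity))
    calc X ≤ N j * Real.log (b j) := hN1 j
      _ ≤ _ := hj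
      _ ≤ (((m * c / η + 1) * Y ^ η) * Y ^ γ) * ((μ * Λ * 2 + C) * Y ^ θ) :=
          mul_le_mul h1 hQs hsum0 (by positivity)
      _ = A * (Y ^ η * Y ^ γ * Y ^ θ) := by rw [hA]; ring
      _ = A * Y ^ (1 - η) := by
          rw [← Real.rpow_add (by linarith), ← Real.rpow_add (by linarith)]
          congr 2
          rw [hη]; ring
  have h1 := hY0 Y (by rw [hY]; linarith)
  have h2 : Y ^ (1 - η) * Y ^ η = Y := by
    rw [← Real.rpow_add (by linarith), sub_add_cancel, Real.rpow_one]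
  have h3 : 0 < Y ^ (1 - η) := Real.rpow_pos_of_pos (by linarith) _
  have h4 := mul_lt_mul_of_pos_left h1 h3
  rw [h2] at h4
  rw [hY] at h4 hfin
  linarith

end Pool.Agent.R473.FV
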