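import Pool.Agent.R473.FV.Cor

/-!
# Finite families of numbers with a simultaneous measure
-/

set_option autoImplicit false

namespace Pool.Agent.R473.FV

open Finset
open Pool.Agent.H831R3.LC (dig A)
open Pool.Agent.R473.FP (run errors)

/-- the inequality for several machines -/
theorem fam_sep (T : Finset ℕ) (x : ℕ → ℝ) (μ c0 : ℝ) (hμ : 1 ≤ μ) (hc0 : 0 < c0)
    (hM : ∀ q : ℕ, 1 ≤ q → ∀ p : ℕ → ℤ, ∃ j ∈ T, c0 ≤ (q : ℝ) ^ (μ - 1) * |q * x j - p j|)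
    (b : ℕ → ℕ) (hb : ∀ j ∈ T, 2 ≤ b j) (Q : ℕ → ℕ) (δ : ∀ j, Fin (Q j) → ℤ → Fin (Q j))
    (q₀ : ∀ j, Fin (Q j)) (out : ∀ j, Fin (Q j) → ℤ) (N : ℕ → ℕ) :
    ∃ j ∈ T, N j * Real.log (b j) ≤
      (∑ i ∈ range (∑ j ∈ T, errors (δ j) (q₀ j) (out j) (dig (x j) (b j)) (N j) + 1),
        (T.card * μ) ^ i) *
      (μ * ∑ j ∈ T, ((Q j : ℝ) + 1) * Real.log (b j) + (Real.log 2 + |Real.log c0|)) := by
  classical
  obtain ⟨j, hj⟩ := separate (ι := {j // j ∈ T}) (fun j => x j) μ c0 hμ hc0 (fun q hq p => by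
    obtain ⟨j, hj, h⟩ := hM q hq fun i => if h : i ∈ T then p ⟨i, h⟩ else 0
    refine ⟨⟨j, hj⟩, ?_⟩
    rw [dif_pos hj] at h
    exact h) (fun j => b j) (fun j => hb j j.2) (fun j => Q j) (fun j => δ j) (fun j => q₀ j)
    (fun j => out j) (fun j => N j)
  refine ⟨j, j.2, ?_⟩
  rw [Fintype.card_coe] at hj
  have e1 := Finset.sum_coe_sort T
    fun j => errors (δ j) (q₀ j) (out j) (dig (x j) (b j)) (N j)
  have e2 := Finset.sum_coe_sort T fun j => ((Q j : ℝ) + 1) * Real.log (b j)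
  rw [e1, e2] at hj
  exact hj

/-- one of the numbers is hard -/
theorem fam_hard (T : Finset ℕ) (x : ℕ → ℝ) (μ c0 : ℝ) (hμ : 1 ≤ μ) (hc0 : 0 < c0)
    (hM : ∀ q : ℕ, 1 ≤ q → ∀ p : ℕ → ℤ, ∃ j ∈ T, c0 ≤ (q : ℝ) ^ (μ - 1) * |q * x j - p j|)
    (θ c : ℝ) (hθ : 0 ≤ θ) (hc : 0 ≤ c)
    (hlt : c * (T.card * Real.log (T.card * μ)) < 1 - θ) :
    ∃ j ∈ T, ∀ b : ℕ, 2 ≤ b → ∀ N0 : ℕ, ∃ N : ℕ, N0 ≤ N ∧ ∀ (Q : ℕ) (δ : Fin Q → ℤ → Fin Q)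
      (q₀ : Fin Q) (out : Fin Q → ℤ), (Q : ℝ) ≤ (N : ℝ) ^ θ →
      c * Real.log N < errors δ q₀ out (dig (x j) b) N := by
  classical
  obtain ⟨j, hj⟩ := some_number (ι := {j // j ∈ T}) (fun j => x j) μ c0 hμ hc0 (fun q hq p => by
    obtain ⟨j, hj, h⟩ := hM q hq fun i => if h : i ∈ T then p ⟨i, h⟩ else 0
    refine ⟨⟨j, hj⟩, ?_⟩
    rw [dif_pos hj] at h
    exact h) θ c hθ hc (by rw [Fintype.card_coe]; exact hlt)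
  exact ⟨j, j.2, hj⟩

end Pool.Agent.R473.FV
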