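import Pool.Agent.R473.FP.FS

/-!
# Finite-state predictors for the digits of several numbers in several bases
-/

set_option autoImplicit false

namespace Pool.Agent.R473.FV

open Finset
open Pool.Agent.H831R3.LC (dig A)
open Pool.Agent.R473.FP (run errors periodic_stretch close)

variable {ι : Type} [Fintype ι] [DecidableEq ι]

/-- the length of a stretch without errors for several machines at once -/
theorem stretch (x : ι → ℝ) (μ c0 : ℝ) (hμ : 1 ≤ μ) (hc0 : 0 < c0)
    (hM : ∀ q : ℕ, 1 ≤ q → ∀ p : ι → ℤ, ∃ j, c0 ≤ (q : ℝ) ^ (μ - 1) * |q * x j - p j|)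
    (b : ι → ℕ) (hb : ∀ j, 2 ≤ b j) (Q : ι → ℕ) (δ : ∀ j, Fin (Q j) → ℤ → Fin (Q j))
    (q₀ : ∀ j, Fin (Q j)) (out : ∀ j, Fin (Q j) → ℤ) (u v : ℝ) (hu : 0 ≤ u)
    (hno : ∀ j (n : ℕ), u < n * Real.log (b j) → n * Real.log (b j) < v →
      out j (run (δ j) (q₀ j) (dig (x j) (b j)) n) = dig (x j) (b j) (n + 1)) :
    v ≤ Fintype.card ι * μ * u + (μ * ∑ j, ((Q j : ℝ) + 1) * Real.log (b j) +
      (Real.log 2 + |Real.log c0|)) := by
  classical
  have hbR : ∀ j, (2 : ℝ) ≤ b j := fun j => by exact_mod_cast hb j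
  have hlb0 : ∀ j, 0 < Real.log (b j) := fun j => Real.log_pos (by linarith [hbR j])
  obtain ⟨j0, -⟩ := hM 1 le_rfl (fun _ => 0)
  have hcard : (1 : ℝ) ≤ Fintype.card ι := by
    have : 0 < Fintype.card ι := Fintype.card_pos_iff.2 ⟨j0⟩
    exact_mod_cast this
  have hl2 : 0 < Real.log 2 := Real.log_pos (by norm_num)
  have hc00 := abs_nonneg (Real.log c0)
  obtain ⟨s, hs⟩ : ∃ s : ι → ℕ, ∀ j, s j = ⌊u / Real.log (b j)⌋₊ + 1 := ⟨_, fun _ => rfl⟩
  obtain ⟨V, hV⟩ : ∃ V : ι → ℕ, ∀ j, V j = ⌈v / Real.log (b j)⌉₊ := ⟨_, fun _ => rfl⟩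
  have hs1 : ∀ j, (s j : ℝ) * Real.log (b j) ≤ u + Real.log (b j) := fun j => by
    rw [hs]
    push_cast
    have h1 := Nat.floor_le (div_nonneg hu (hlb0 j).le)
    have h2 : (⌊u / Real.log (b j)⌋₊ : ℝ) * Real.log (b j) ≤ u := by
      rwa [le_div_iff₀ (hlb0 j)] at h1
    linarith
  have hs2 : ∀ j (n : ℕ), s j ≤ n → u < n * Real.log (b j) := fun j n hn => by
    rw [hs] at hn
    have h1 := Nat.lt_floor_add_one (u / Real.log (b j))
    rw [div_lt_iff₀ (hlb0 j)] at h1
    have h2 : ((⌊u / Real.log (b j)⌋₊ : ℝ) + 1) ≤ n := by exact_mod_cast hn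
    have h3 := mul_le_mul_of_nonneg_right h2 (hlb0 j).le
    linarith
  have hV1 : ∀ j, v ≤ (V j : ℝ) * Real.log (b j) := fun j => by
    rw [hV]
    have h1 := Nat.le_ceil (v / Real.log (b j))
    rwa [div_le_iff₀ (hlb0 j)] at h1
  have hV2 : ∀ j (n : ℕ), n < V j → n * Real.log (b j) < v := fun j n hn => by
    rw [hV] at hn
    have h1 := Nat.lt_ceil.1 hn
    rwa [lt_div_iff₀ (hlb0 j)] at h1
  have hper : ∀ j, ∃ a p : ℕ, 1 ≤ p ∧ a + p ≤ Q j ∧ ∀ i, a ≤ i → s j + i + p < V j →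
      dig (x j) (b j) (s j + i + p + 1) = dig (x j) (b j) (s j + i + 1) := fun j =>
    periodic_stretch (δ j) (q₀ j) (out j) (dig (x j) (b j)) (s j) (V j)
      fun i h1 h2 => hno j i (hs2 j i h1) (hV2 j i h2)
  choose a p hp hap hper using hper
  have hS : ∀ j, ((Q j : ℝ) + 1) * Real.log (b j) ≤ ∑ j, ((Q j : ℝ) + 1) * Real.log (b j) :=
    fun j => Finset.single_le_sum (f := fun j => ((Q j : ℝ) + 1) * Real.log (b j))
      (fun i _ => mul_nonneg (by positivity) (hlb0 i).le) (Finset.mem_univ j)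
  have hS0 : 0 ≤ ∑ j, ((Q j : ℝ) + 1) * Real.log (b j) :=
    Finset.sum_nonneg fun i _ => mul_nonneg (by positivity) (hlb0 i).le
  by_cases hall : ∀ j, s j + (a j + p j) < V j
  swap
  · push Not at hall
    obtain ⟨j, hj⟩ := hall
    have h1 : (V j : ℝ) ≤ s j + Q j := by exact_mod_cast (by have := hap j; omega : V j ≤ s j + Q j)
    have h2 := mul_le_mul_of_nonneg_right h1 (hlb0 j).le
    have h3 := hs1 j
    have h4 := hV1 j
    have h5 := hS j
    have h6 : u ≤ Fintype.card ι * μ * u := by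
      have : 1 ≤ (Fintype.card ι : ℝ) * μ := by nlinarith
      nlinarith
    have h7 : ∑ j, ((Q j : ℝ) + 1) * Real.log (b j) ≤
        μ * ∑ j, ((Q j : ℝ) + 1) * Real.log (b j) := by nlinarith
    nlinarith
  obtain ⟨w, hw⟩ : ∃ w : ι → ℕ, ∀ j, V j = s j + (a j + p j) + w j :=
    ⟨fun j => V j - (s j + (a j + p j)), fun j => by have := hall j; dsimp only; omega⟩
  obtain ⟨q, hq⟩ : ∃ q : ι → ℕ, ∀ j, q j = b j ^ (s j + a j + p j) - b j ^ (s j + a j) :=
    ⟨_, fun _ => rfl⟩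
  obtain ⟨P, hP⟩ : ∃ P : ι → ℤ, ∀ j, P j = A (x j) (b j) (s j + a j + p j) -
      A (x j) (b j) (s j + a j) := ⟨_, fun _ => rfl⟩
  have hlt : ∀ j, b j ^ (s j + a j) < b j ^ (s j + a j + p j) := fun j =>
    Nat.pow_lt_pow_right (by have := hb j; omega) (by have := hp j; omega)
  have hqR : ∀ j, (q j : ℝ) = (b j : ℝ) ^ (s j + a j + p j) - (b j : ℝ) ^ (s j + a j) := fun j => by
    rw [hq, Nat.cast_sub (hlt j).le]; push_cast; ring
  have hcl : ∀ j, |(q j : ℝ) * x j - P j| * (b j : ℝ) ^ w j ≤ 1 := fun j => by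
    have h1 := close (x j) (b j) (by have := hb j; omega) (s j + a j + p j) (s j + a j) (w j)
      (fun i hi => by
        have := hper j (a j + i) (by omega) (by have := hw j; omega)
        rw [show s j + a j + p j + i + 1 = s j + (a j + i) + p j + 1 by ring,
          show s j + a j + i + 1 = s j + (a j + i) + 1 by ring]
        exact this)
    rw [hqR, hP]
    rw [show ((b j : ℝ) ^ (s j + a j + p j) - (b j : ℝ) ^ (s j + a j)) * x j =
      x j * (b j : ℝ) ^ (s j + a j + p j) - x j * (b j : ℝ) ^ (s j + a j) by ring]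
    exact h1
  have hq1 : ∀ j, 1 ≤ q j := fun j => by
    have := hlt j
    rw [hq]; omega
  have hq1R : ∀ j, (1 : ℝ) ≤ q j := fun j => by exact_mod_cast hq1 j
  have hqle : ∀ j, Real.log (q j) ≤ u + ((Q j : ℝ) + 1) * Real.log (b j) := fun j => by
    have h1 : (q j : ℝ) ≤ (b j : ℝ) ^ (s j + Q j) := by
      rw [hqR]
      have h1 : (b j : ℝ) ^ (s j + a j + p j) ≤ (b j : ℝ) ^ (s j + Q j) :=
        pow_le_pow_right₀ (by linarith [hbR j]) (by have := hap j; omega)
      have h2 : (0 : ℝ) ≤ (b j : ℝ) ^ (s j + a j) := by positivity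
      linarith
    have h2 := Real.log_le_log (by linarith [hq1R j]) h1
    rw [Real.log_pow] at h2
    push_cast at h2
    have h3 := hs1 j
    nlinarith
  have hqge : ∀ j, ((s j + a j + p j : ℕ) : ℝ) * Real.log (b j) - Real.log 2 ≤ Real.log (q j) :=
    fun j => by
    have hbj : (0 : ℝ) < b j := by linarith [hbR j]
    have h1 : (b j : ℝ) ^ (s j + a j + p j) ≤ 2 * q j := by
      rw [hqR]
      have h2 : 2 * (b j : ℝ) ^ (s j + a j) ≤ (b j : ℝ) ^ (s j + a j + p j) := by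
        rw [pow_add _ (s j + a j) (p j), mul_comm]
        refine mul_le_mul_of_nonneg_left ?_ (by positivity)
        calc (2 : ℝ) ≤ b j := hbR j
          _ = (b j : ℝ) ^ 1 := (pow_one _).symm
          _ ≤ (b j : ℝ) ^ p j := pow_le_pow_right₀ (by linarith [hbR j]) (hp j)
      linarith
    have h2 := Real.log_le_log (by positivity) h1
    rw [Real.log_pow, Real.log_mul (by norm_num) (by linarith [hq1R j])] at h2
    linarith
  have hqp : 1 ≤ ∏ j, q j := Nat.one_le_iff_ne_zero.2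
    (Finset.prod_ne_zero_iff.2 fun j _ => by have := hq1 j; omega)
  obtain ⟨j, hj⟩ := hM (∏ j, q j) hqp fun j => P j * ∏ i ∈ univ.erase j, (q i : ℤ)
  have hprod : ((∏ i, q i : ℕ) : ℝ) = q j * ∏ i ∈ univ.erase j, (q i : ℝ) := by
    push_cast
    exact (Finset.mul_prod_erase univ (fun i => (q i : ℝ)) (Finset.mem_univ j)).symm
  have hR0 : 0 < ∏ i ∈ univ.erase j, (q i : ℝ) :=
    Finset.prod_pos fun i _ => by linarith [hq1R i]
  have e1 : ((∏ i, q i : ℕ) : ℝ) * x j - ((P j * ∏ i ∈ univ.erase j, (q i : ℤ) : ℤ) : ℝ) =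
      (q j * x j - P j) * ∏ i ∈ univ.erase j, (q i : ℝ) := by
    rw [hprod]
    push_cast
    ring
  rw [e1, abs_mul, abs_of_pos hR0] at hj
  obtain ⟨G, hG⟩ : ∃ G : ℝ, G = ((∏ i, q i : ℕ) : ℝ) := ⟨_, rfl⟩
  have hG1 : 1 ≤ G := by rw [hG]; exact_mod_cast hqp
  have hlG : Real.log G ≤ Fintype.card ι * u + ∑ j, ((Q j : ℝ) + 1) * Real.log (b j) := by
    rw [hG]
    push_cast
    rw [Real.log_prod (fun i _ => by linarith [hq1R i])]
    calc ∑ i, Real.log (q i) ≤ ∑ i, (u + ((Q i : ℝ) + 1) * Real.log (b i)) :=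
          Finset.sum_le_sum fun i _ => hqle i
      _ = _ := by rw [Finset.sum_add_distrib, Finset.sum_const, nsmul_eq_mul]; simp
  have hqj0 : (0 : ℝ) < q j := by linarith [hq1R j]
  have hbj : (0 : ℝ) < b j := by linarith [hbR j]
  have h1 : c0 * ((b j : ℝ) ^ w j * q j) ≤ G ^ μ := by
    rw [← hG] at hj
    have h3 : G ^ (μ - 1) * G = G ^ μ := by
      rw [← Real.rpow_add_one (by linarith), sub_add_cancel]
    calc c0 * ((b j : ℝ) ^ w j * q j) ≤ (G ^ (μ - 1) * (|(q j : ℝ) * x j - P j| *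
          ∏ i ∈ univ.erase j, (q i : ℝ))) * ((b j : ℝ) ^ w j * q j) :=
          mul_le_mul_of_nonneg_right hj (by positivity)
      _ = G ^ (μ - 1) * (q j * ∏ i ∈ univ.erase j, (q i : ℝ)) *
          (|(q j : ℝ) * x j - P j| * (b j : ℝ) ^ w j) := by ring
      _ = G ^ μ * (|(q j : ℝ) * x j - P j| * (b j : ℝ) ^ w j) := by
          rw [← hprod, ← hG, h3]
      _ ≤ G ^ μ * 1 := mul_le_mul_of_nonneg_left (hcl j)
          (Real.rpow_nonneg (by linarith) _)
      _ = _ := mul_one _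
  have h2 := Real.log_le_log (by positivity) h1
  rw [Real.log_mul hc0.ne' (by positivity), Real.log_mul (by positivity) hqj0.ne', Real.log_pow,
    Real.log_rpow (by linarith)] at h2
  have h3 := hV1 j
  have h4 := hqge j
  rw [hw j] at h3
  push_cast at h3 h4
  have h5 : -|Real.log c0| ≤ Real.log c0 := neg_abs_le _
  have h6 := mul_le_mul_of_nonneg_left hlG (by linarith : (0 : ℝ) ≤ μ)
  nlinarith

/-- **Several finite-state predictors.** -/
theorem separate (x : ι → ℝ) (μ c0 : ℝ) (hμ : 1 ≤ μ) (hc0 : 0 < c0)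
    (hM : ∀ q : ℕ, 1 ≤ q → ∀ p : ι → ℤ, ∃ j, c0 ≤ (q : ℝ) ^ (μ - 1) * |q * x j - p j|)
    (b : ι → ℕ) (hb : ∀ j, 2 ≤ b j) (Q : ι → ℕ) (δ : ∀ j, Fin (Q j) → ℤ → Fin (Q j))
    (q₀ : ∀ j, Fin (Q j)) (out : ∀ j, Fin (Q j) → ℤ) (N : ι → ℕ) :
    ∃ j, N j * Real.log (b j) ≤
      (∑ i ∈ range (∑ j, errors (δ j) (q₀ j) (out j) (dig (x j) (b j)) (N j) + 1),
        (Fintype.card ι * μ) ^ i) *
      (μ * ∑ j, ((Q j : ℝ) + 1) * Real.log (b j) + (Real.log 2 + |Real.log c0|)) := by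
  classical
  have hbR : ∀ j, (2 : ℝ) ≤ b j := fun j => by exact_mod_cast hb j
  have hlb0 : ∀ j, 0 < Real.log (b j) := fun j => Real.log_pos (by linarith [hbR j])
  obtain ⟨j0, -⟩ := hM 1 le_rfl (fun _ => 0)
  obtain ⟨jm, -, hjm⟩ := Finset.exists_min_image (univ : Finset ι)
    (fun j => (N j : ℝ) * Real.log (b j)) ⟨j0, mem_univ _⟩
  refine ⟨jm, ?_⟩
  obtain ⟨D, hD⟩ : ∃ D : ℝ, D = μ * ∑ j, ((Q j : ℝ) + 1) * Real.log (b j) +
    (Real.log 2 + |Real.log c0|) := ⟨_, rfl⟩
  have hD0 : 0 ≤ D := by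
    rw [hD]
    have h1 : 0 ≤ ∑ j, ((Q j : ℝ) + 1) * Real.log (b j) :=
      Finset.sum_nonneg fun i _ => mul_nonneg (by positivity) (hlb0 i).le
    have h2 := abs_nonneg (Real.log c0)
    have h3 : 0 < Real.log 2 := Real.log_pos (by norm_num)
    have : 0 ≤ μ * ∑ j, ((Q j : ℝ) + 1) * Real.log (b j) := mul_nonneg (by linarith) h1
    linarith
  obtain ⟨K, hK⟩ : ∃ K : ℝ, K = Fintype.card ι * μ := ⟨_, rfl⟩
  have hK0 : 0 ≤ K := by rw [hK]; positivity
  rw [← hD, ← hK]
  obtain ⟨Z, hZ⟩ : ∃ Z : Finset (Σ _ : ι, ℕ), Z = univ.sigma fun j => (range (N j)).filter fun n =>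
    out j (run (δ j) (q₀ j) (dig (x j) (b j)) n) ≠ dig (x j) (b j) (n + 1) := ⟨_, rfl⟩
  have hZc : Z.card = ∑ j, errors (δ j) (q₀ j) (out j) (dig (x j) (b j)) (N j) := by
    rw [hZ, Finset.card_sigma]
    rfl
  rw [← hZc]
  have key : ∀ (k : ℕ) (v : ℝ), v ≤ N jm * Real.log (b jm) →
      (Z.filter fun z => (z.2 : ℝ) * Real.log (b z.1) < v).card ≤ k →
      v ≤ (∑ i ∈ range (k + 1), K ^ i) * D := by
    intro k
    induction k with
    | zero =>
      intro v hv hcard
      have hemp := Finset.card_eq_zero.1 (Nat.le_zero.1 hcard)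
      have h1 := stretch x μ c0 hμ hc0 hM b hb Q δ q₀ out 0 v le_rfl (fun j n _ hn => by
        by_contra hne
        have hnN : n < N j := by
          have h2 := hjm j (mem_univ j)
          have h3 : (n : ℝ) * Real.log (b j) < N j * Real.log (b j) := by linarith
          exact_mod_cast lt_of_mul_lt_mul_right h3 (hlb0 j).le
        have hmem : (⟨j, n⟩ : Σ _ : ι, ℕ) ∈
            Z.filter fun z => (z.2 : ℝ) * Real.log (b z.1) < v := by
          rw [mem_filter, hZ, mem_sigma, mem_filter, mem_range]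
          exact ⟨⟨mem_univ _, hnN, hne⟩, hn⟩
        rw [hemp] at hmem
        exact absurd hmem (Finset.notMem_empty _))
      rw [← hD] at h1
      simpa using h1
    | succ k ih =>
      intro v hv hcard
      have hgr : (∑ i ∈ range (k + 1), K ^ i) * D ≤ (∑ i ∈ range (k + 1 + 1), K ^ i) * D := by
        refine mul_le_mul_of_nonneg_right ?_ hD0
        rw [Finset.sum_range_succ _ (k + 1)]
        have : 0 ≤ K ^ (k + 1) := by positivity
        linarith
      by_cases hle : (Z.filter fun z => (z.2 : ℝ) * Real.log (b z.1) < v).card ≤ k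
      · exact (ih v hv hle).trans hgr
      have hne : (Z.filter fun z => (z.2 : ℝ) * Real.log (b z.1) < v).Nonempty := by
        rw [← Finset.card_pos]; omega
      obtain ⟨z, hz, hzmax⟩ := Finset.exists_max_image _
        (fun z : (Σ _ : ι, ℕ) => (z.2 : ℝ) * Real.log (b z.1)) hne
      obtain ⟨u, hu⟩ : ∃ u : ℝ, u = (z.2 : ℝ) * Real.log (b z.1) := ⟨_, rfl⟩
      have hu0 : 0 ≤ u := by rw [hu]; exact mul_nonneg (Nat.cast_nonneg _) (hlb0 _).le
      have huv : u < v := by rw [hu]; exact (mem_filter.1 hz).2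
      have hcu : (Z.filter fun z => (z.2 : ℝ) * Real.log (b z.1) < u).card ≤ k := by
        have hss : (Z.filter fun z => (z.2 : ℝ) * Real.log (b z.1) < u) ⊂
            (Z.filter fun z => (z.2 : ℝ) * Real.log (b z.1) < v) := by
          refine ⟨fun y hy => ?_, fun hcon => ?_⟩
          · rw [mem_filter] at hy ⊢
            exact ⟨hy.1, hy.2.trans huv⟩
          · have h1 := (mem_filter.1 (hcon hz)).2
            rw [hu] at h1
            exact absurd h1 (lt_irrefl _)
        have := Finset.card_lt_card hss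
        omega
      have hub := ih u (by linarith) hcu
      have h1 := stretch x μ c0 hμ hc0 hM b hb Q δ q₀ out u v hu0 (fun j n hn1 hn => by
        by_contra hne
        have hnN : n < N j := by
          have h2 := hjm j (mem_univ j)
          have h3 : (n : ℝ) * Real.log (b j) < N j * Real.log (b j) := by linarith
          exact_mod_cast lt_of_mul_lt_mul_right h3 (hlb0 j).le
        have hmem : (⟨j, n⟩ : Σ _ : ι, ℕ) ∈
            Z.filter fun z => (z.2 : ℝ) * Real.log (b z.1) < v := by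
          rw [mem_filter, hZ, mem_sigma, mem_filter, mem_range]
          exact ⟨⟨mem_univ _, hnN, hne⟩, hn⟩
        have h2 := hzmax _ hmem
        rw [← hu] at h2
        exact absurd hn1 (not_lt.2 h2))
      rw [← hD, ← hK] at h1
      have h2 := mul_le_mul_of_nonneg_left hub hK0
      rw [Finset.sum_range_succ' _ (k + 1)]
      calc v ≤ K * u + D := h1
        _ ≤ K * ((∑ i ∈ range (k + 1), K ^ i) * D) + D := by linarith
        _ = _ := by
          rw [pow_zero, add_mul, one_mul, ← mul_assoc, Finset.mul_sum]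
          congr 2
          refine Finset.sum_congr rfl fun i _ => ?_
          rw [pow_succ]; ring
  exact key _ _ le_rfl (Finset.card_filter_le _ _)

end Pool.Agent.R473.FV
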